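import Mathlib

set_option autoImplicit false

/-!
# MP_1d95a5_co: faces without affine stresses in dimension `d = 2 i` for every `i ≥ 3`

The earlier counterexample (`i = 3`, `d = 6`) is the direct sum of three triangles, where the
coefficient vanishes by a symmetry. In the direct sums of simplices for `i = 4` no coefficient
vanishes. Here we take two simplices `Δ₁`, `Δ₃` with `i` vertices and a triangle `Δ₂`, with centroids
`0` in `ℝ^(i-1)`, `ℝ^(i-1)`, `ℝ²`, and move the triangle to the point `(i-3)/(i-1) u` of `Δ₁`, where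
`u` is a vertex of `Δ₁`. The convex hull of `Δ₁`, `Δ₃` and of the moved triangle is a simplicial
`2i`-polytope whose boundary is still the join of the three boundaries. In its face ring modulo the
linear forms let `v`, `w`, `t` be the classes of the vertices of `Δ₁` other than `u`, of `Δ₂` and of
`Δ₃`. The relations become `u = v - κ w`, `v^(i-1) u = 0`, `w³ = 0`, `(v + δ w)^i = 0`, and the shift is
chosen such that they give `v^(i-2) w t = 0`.

A polytope with at most `d + 2` vertices is never a counterexample: its vertices have one affine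
dependence `μ`, which has no zero coefficient, all sets of at most `i` vertices are faces, and the
`i`-th power of the linear form `∑ μ_v x_v` is an affine stress.
-/

open Finset Matrix MvPolynomial

namespace Pool.Agent.Results.MP_1d95a5_co.AllDegrees

section Definitions

variable {V : Type} [Fintype V] [DecidableEq V] {d : ℕ}

/-- `F` is the vertex set of a proper face of the polytope with the vertices `p v`: some linear
functional is constant on `F` and smaller outside `F`, and `F` is not the set of all vertices. -/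
def IsFace (p : V → Fin d → ℝ) (F : Finset V) : Prop :=
  F ≠ univ ∧ ∃ (a : Fin d → ℝ) (c : ℝ), (∀ v ∈ F, a ⬝ᵥ p v = c) ∧ ∀ v, v ∉ F → a ⬝ᵥ p v < c

/-- The points `p v` are the (distinct) vertices of a simplicial `d`-polytope in `ℝ^d`. -/
structure IsSimplicialPolytope (p : V → Fin d → ℝ) : Prop where
  injective : Function.Injective p
  vertex : ∀ v, IsFace p {v}
  full : affineSpan ℝ (Set.range p) = ⊤
  simplicial : ∀ F, IsFace p F → AffineIndependent ℝ (fun v : F => p v)

/-- `M` is a missing face of the boundary complex: it is not a face, but each proper subset is. -/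
def IsMissing (p : V → Fin d → ℝ) (M : Finset V) : Prop :=
  ¬ IsFace p M ∧ ∀ N, N ⊂ M → IsFace p N

/-- `f` is an affine `i`-stress: a homogeneous polynomial of degree `i` all of whose monomials are
supported on faces, with `∑ ∂f/∂x_v = 0` and `∑ (p v)_k ∂f/∂x_v = 0` for each coordinate `k`. -/
structure IsAffineStress (i : ℕ) (p : V → Fin d → ℝ) (f : MvPolynomial V ℝ) : Prop where
  homogeneous : f.IsHomogeneous i
  faces : ∀ m ∈ f.support, IsFace p m.support
  sum : ∑ v, pderiv v f = 0
  coord : ∀ k, ∑ v, C (p v k) * pderiv v f = 0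

/-- The monomial `x_F`, as an exponent vector. -/
noncomputable def xF (F : Finset V) : V →₀ ℕ := ∑ v ∈ F, Finsupp.single v 1

/-- No missing face has dimension `≥ d - i + 1`, that is, at least `d - i + 2` elements. -/
def NoLargeMissing (i : ℕ) (p : V → Fin d → ℝ) : Prop :=
  ∀ M, IsMissing p M → M.card < d - i + 2

/-- The numbers of vertices of the counterexamples to the assertion of Q1 for the given `d` and `i`:
simplicial `d`-polytopes without missing faces of dimension `≥ d - i + 1` which have a face `F` with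
`i` elements such that the coefficient of `x_F` is zero in every affine `i`-stress. -/
def counterSizes (d i : ℕ) : Set ℕ :=
  {n | ∃ (V : Type) (_ : Fintype V) (_ : DecidableEq V) (p : V → Fin d → ℝ) (F : Finset V),
    Fintype.card V = n ∧ IsSimplicialPolytope p ∧ NoLargeMissing i p ∧ IsFace p F ∧ F.card = i ∧
      ∀ f, IsAffineStress i p f → f.coeff (xF F) = 0}

end Definitions

/-! ### The apolar functional of a stress -/

section Apolar

variable {V : Type} [Fintype V] [DecidableEq V] {d : ℕ}

/-- The product of the factorials of the exponents. -/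
def fct (m : V →₀ ℕ) : ℝ := ∏ v, ((m v).factorial : ℝ)

theorem fct_add (m : V →₀ ℕ) (v : V) :
    fct (m + Finsupp.single v 1) = ((m v : ℝ) + 1) * fct m := by
  unfold fct
  rw [← Finset.mul_prod_erase univ _ (mem_univ v), ← Finset.mul_prod_erase univ
    (fun w => ((m w).factorial : ℝ)) (mem_univ v)]
  have h1 : ∏ w ∈ univ.erase v, (((m + Finsupp.single v 1 : V →₀ ℕ) w).factorial : ℝ)
      = ∏ w ∈ univ.erase v, ((m w).factorial : ℝ) := by
    apply prod_congr rfl
    intro w hw
    have : w ≠ v := (mem_erase.1 hw).1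
    simp [Finsupp.single_apply, this.symm]
  rw [h1]
  have h2 : (m + Finsupp.single v 1 : V →₀ ℕ) v = m v + 1 := by simp
  rw [h2, Nat.factorial_succ]
  push_cast
  ring

/-- The apolar functional `g ↦ g(∂) f` (constant term). -/
noncomputable def Lam (f : MvPolynomial V ℝ) : MvPolynomial V ℝ →ₗ[ℝ] ℝ :=
  (basisMonomials V ℝ).constr ℝ (fun m => fct m * f.coeff m)

theorem Lam_monomial (f : MvPolynomial V ℝ) (m : V →₀ ℕ) :
    Lam f (monomial m 1) = fct m * f.coeff m := by
  have h : (monomial m (1 : ℝ)) = basisMonomials V ℝ m := by simp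
  rw [h, Lam, Module.Basis.constr_basis]

/-- A linear form which annihilates `f` by differentiation is killed. -/
theorem Lam_lin (f : MvPolynomial V ℝ) (θ : V → ℝ) (h : ∑ v, C (θ v) * pderiv v f = 0)
    (g : MvPolynomial V ℝ) : Lam f ((∑ v, C (θ v) * X v) * g) = 0 := by
  induction g using MvPolynomial.induction_on' with
  | monomial n a =>
    have h0 : monomial n a = C a * monomial n (1 : ℝ) := by
      rw [C_mul_monomial, mul_one]
    have h1 : (∑ v, C (θ v) * X v) * monomial n a
        = ∑ v, (a * θ v) • monomial (n + Finsupp.single v 1) (1 : ℝ) := by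
      rw [h0, sum_mul]
      apply sum_congr rfl
      intro v _
      have hX : X v * monomial n (1 : ℝ) = monomial (n + Finsupp.single v 1) 1 := by
        rw [X, monomial_mul, one_mul, add_comm]
      rw [smul_eq_C_mul, C_mul, ← hX]
      ring
    rw [h1, map_sum]
    have h2 : ∀ v, Lam f ((a * θ v) • monomial (n + Finsupp.single v 1) (1 : ℝ))
        = a * fct n * (θ v * (coeff n (pderiv v f))) := by
      intro v
      rw [map_smul, Lam_monomial, fct_add, coeff_pderiv, smul_eq_mul]
      ring
    rw [sum_congr rfl fun v _ => h2 v, ← mul_sum]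
    have h3 := congrArg (coeff n) h
    rw [coeff_sum, coeff_zero] at h3
    have h4 : ∑ v, θ v * coeff n (pderiv v f) = 0 := by
      rw [← h3]
      exact sum_congr rfl fun v _ => by rw [coeff_C_mul]
    rw [h4, mul_zero]
  | add p q hp hq => rw [mul_add, map_add, hp, hq, add_zero]

/-- The polynomials `x` with `g(∂) x(∂) f` having zero constant term for all `g` form an ideal. -/
theorem Lam_ideal (f : MvPolynomial V ℝ) (S : Set (MvPolynomial V ℝ))
    (hS : ∀ s ∈ S, ∀ g, Lam f (s * g) = 0) (x : MvPolynomial V ℝ) (hx : x ∈ Ideal.span S) :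
    Lam f x = 0 := by
  have key : ∀ g, Lam f (x * g) = 0 := by
    refine Submodule.span_induction (p := fun x _ => ∀ g, Lam f (x * g) = 0) hS ?_ ?_ ?_ hx
    · intro g; rw [zero_mul, map_zero]
    · intro a b _ _ ha hb g
      rw [add_mul, map_add, ha, hb, add_zero]
    · intro a b _ hb g
      rw [smul_eq_mul, mul_comm a b, mul_assoc]
      exact hb _
  simpa using key 1

theorem Lam_nonface (f : MvPolynomial V ℝ) (M : Finset V)
    (h : ∀ m ∈ f.support, ¬ M ⊆ m.support) (g : MvPolynomial V ℝ) :
    Lam f ((∏ v ∈ M, X v) * g) = 0 := by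
  induction g using MvPolynomial.induction_on' with
  | monomial n a =>
    have h1 : (∏ v ∈ M, (X v : MvPolynomial V ℝ)) = monomial (xF M) 1 := by
      unfold xF
      rw [monomial_sum_one]
      rfl
    have h2 : (∏ v ∈ M, (X v : MvPolynomial V ℝ)) * monomial n a
        = a • monomial (xF M + n) (1 : ℝ) := by
      rw [h1, monomial_mul, one_mul, smul_monomial, smul_eq_mul, mul_one]
    rw [h2, map_smul, Lam_monomial]
    have h3 : f.coeff (xF M + n) = 0 := by
      by_contra hne
      apply h _ (mem_support_iff.2 hne)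
      intro v hv
      rw [Finsupp.mem_support_iff]
      have : 1 ≤ xF M v := by
        unfold xF
        rw [Finsupp.finsetSum_apply]
        refine le_trans ?_ (single_le_sum (f := fun w => (Finsupp.single w 1 : V →₀ ℕ) v)
          (fun _ _ => Nat.zero_le _) hv)
        simp
      rw [Finsupp.add_apply]
      omega
    rw [h3, mul_zero, smul_zero]
  | add p q hp hq => rw [mul_add, map_add, hp, hq, add_zero]

end Apolar

/-! ### Algebra -/

theorem pow_expand {Q : Type} [CommRing Q] (a b : Q) (hb : b ^ 3 = 0) (m : ℕ) :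
    2 * (a + b) ^ (m + 2) = 2 * a ^ (m + 2) + 2 * (m + 2) * a ^ (m + 1) * b
      + (m + 2) * (m + 1) * a ^ m * b ^ 2 := by
  induction m with
  | zero => push_cast; ring
  | succ m ih =>
    have h : 2 * (a + b) ^ (m + 1 + 2) = (2 * (a + b) ^ (m + 2)) * (a + b) := by ring
    rw [h, ih]
    push_cast
    linear_combination ((m : Q) + 2) * (m + 1) * a ^ m * hb

/-- The computation in the face ring modulo the linear forms. `v`, `w`, `t` are the classes of the
vertices of the three simplices, `u` is the class of the special vertex. -/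
theorem alg {Q : Type} [CommRing Q] [Algebra ℝ Q] (m : ℕ) (v u w t : Q)
    (κ : ℝ) (hκ : ((m : ℝ) + 2) * κ = 3 * m)
    (hv : v = u + κ • w)
    (hsum : ((m : ℝ) + 2) • v + u + (3 : ℝ) • w + ((m : ℝ) + 3) • t = 0)
    (h1 : v ^ (m + 2) * u = 0) (h2 : w ^ 3 = 0) (h3 : t ^ (m + 3) = 0) :
    v ^ (m + 1) * w * t = 0 := by
  have hm2 : (m : ℝ) + 2 ≠ 0 := by positivity
  have hm3 : (m : ℝ) + 3 ≠ 0 := by positivity
  -- `t = - (v + δ w)`
  obtain ⟨δ, hδ⟩ : ∃ δ : ℝ, δ * (((m : ℝ) + 2) * (m + 3)) = 6 :=
    ⟨6 / (((m : ℝ) + 2) * (m + 3)), by field_simp⟩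
  have hδ' : κ + (m + 3) * δ = 3 := by
    have : ((m : ℝ) + 2) * (κ + (m + 3) * δ) = (m + 2) * 3 := by
      linear_combination hκ + hδ
    exact mul_left_cancel₀ hm2 this
  have ht : t = - (v + δ • w) := by
    have h : ((m : ℝ) + 3) • (t + (v + δ • w)) = 0 := by
      have e : ((m : ℝ) + 3) • (t + (v + δ • w)) =
          (((m : ℝ) + 2) • v + u + (3 : ℝ) • w + ((m : ℝ) + 3) • t) + (v - (u + κ • w))
            + (κ + (m + 3) * δ - 3) • w := by
        module
      rw [e, hsum, ← hv, sub_self, hδ', sub_self, zero_smul]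
      simp
    have h' := (smul_eq_zero_iff_right hm3).1 h
    linear_combination h'
  obtain ⟨K, hK⟩ : ∃ K : Q, K = algebraMap ℝ Q κ := ⟨_, rfl⟩
  obtain ⟨D, hD⟩ : ∃ D : Q, D = algebraMap ℝ Q δ := ⟨_, rfl⟩
  have e1 : K + (m + 3) * D = 3 := by
    have := congrArg (algebraMap ℝ Q) hδ'
    simpa only [hK, hD, map_add, map_mul, map_natCast, map_ofNat] using this
  have e2 : D * (((m : Q) + 2) * (m + 3)) = 6 := by
    have := congrArg (algebraMap ℝ Q) hδ
    simpa only [hD, map_add, map_mul, map_natCast, map_ofNat] using this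
  have hv' : v = u + K * w := by rw [hK, ← Algebra.smul_def]; exact hv
  have ht' : t = - (v + D * w) := by rw [hD, ← Algebra.smul_def]; exact ht
  have hb : (D * w) ^ 3 = 0 := by rw [mul_pow, h2, mul_zero]
  have h4 : (v + D * w) ^ (m + 1 + 2) = 0 := by
    have : (v + D * w) = - t := by rw [ht']; ring
    rw [this, neg_pow, show m + 1 + 2 = m + 3 from rfl, h3, mul_zero]
  have h5 := pow_expand v (D * w) hb (m + 1)
  rw [h4] at h5
  push_cast at h5
  have h6 : v ^ (m + 3) = K * (v ^ (m + 2) * w) := by
    have : v ^ (m + 3) = v ^ (m + 2) * v := by ring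
    rw [this]
    linear_combination h1 + v ^ (m + 2) * hv'
  have h7 : (6 : Q) * (v ^ (m + 1) * w * t) = 0 := by
    rw [ht']
    have h8 : v ^ (m + 1 + 2) = v ^ (m + 3) := rfl
    rw [h8, h6] at h5
    linear_combination h5 + 2 * v ^ (m + 2) * w * e1 + D * v ^ (m + 1) * w ^ 2 * e2
  have h9 : (6 : ℝ) • (v ^ (m + 1) * w * t) = 0 := by
    rw [Algebra.smul_def, map_ofNat]
    exact h7
  exact (smul_eq_zero_iff_right (by norm_num)).1 h9

/-! ### The polytope -/

/-- The vertices: two simplices with `m + 3` vertices each and a triangle. -/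
abbrev Vx (m : ℕ) : Type := Option (Fin (m + 2)) ⊕ (Option (Fin 2) ⊕ Option (Fin (m + 2)))

/-- The coordinates. -/
abbrev Kx (m : ℕ) : Type := Fin (m + 2) ⊕ (Fin 2 ⊕ Fin (m + 2))

/-- The shift of the triangle. -/
noncomputable def kap (m : ℕ) : ℝ := 3 * m / (m + 2)

theorem kap_eq (m : ℕ) : ((m : ℝ) + 2) * kap m = 3 * m := by
  unfold kap
  field_simp

theorem kap_nonneg (m : ℕ) : 0 ≤ kap m := by unfold kap; positivity

theorem kap_lt (m : ℕ) : kap m < 3 := by
  unfold kap
  rw [div_lt_iff₀ (by positivity)]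
  linarith

/-- The coordinates of the vertices. -/
noncomputable def q (m : ℕ) : Vx m → Kx m → ℝ
  | Sum.inl (some j), Sum.inl k => if j = k then 1 else 0
  | Sum.inl none, Sum.inl _ => -1
  | Sum.inr (Sum.inl (some j)), Sum.inr (Sum.inl k) => if j = k then 1 else 0
  | Sum.inr (Sum.inl none), Sum.inr (Sum.inl _) => -1
  | Sum.inr (Sum.inl none), Sum.inl _ => - kap m
  | Sum.inr (Sum.inr (some j)), Sum.inr (Sum.inr k) => if j = k then 1 else 0
  | Sum.inr (Sum.inr none), Sum.inr (Sum.inr _) => -1
  | _, _ => 0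

section Values

variable {m : ℕ} (b : Kx m → ℝ)

theorem val1 (j : Fin (m + 2)) : ∑ k, b k * q m (Sum.inl (some j)) k = b (Sum.inl j) := by
  simp [Fintype.sum_sum_type, q]

theorem val2 : ∑ k, b k * q m (Sum.inl none) k = - ∑ j, b (Sum.inl j) := by
  simp [Fintype.sum_sum_type, q]

theorem val3 (j : Fin 2) :
    ∑ k, b k * q m (Sum.inr (Sum.inl (some j))) k = b (Sum.inr (Sum.inl j)) := by
  simp [Fintype.sum_sum_type, q]

theorem val4 : ∑ k, b k * q m (Sum.inr (Sum.inl none)) k
    = - (∑ j, b (Sum.inr (Sum.inl j))) - kap m * ∑ j, b (Sum.inl j) := by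
  simp only [Fintype.sum_sum_type, q, mul_neg, mul_one, mul_zero, sum_neg_distrib, sum_const_zero,
    add_zero, ← sum_mul]
  ring

theorem val5 (j : Fin (m + 2)) :
    ∑ k, b k * q m (Sum.inr (Sum.inr (some j))) k = b (Sum.inr (Sum.inr j)) := by
  simp [Fintype.sum_sum_type, q]

theorem val6 : ∑ k, b k * q m (Sum.inr (Sum.inr none)) k = - ∑ j, b (Sum.inr (Sum.inr j)) := by
  simp [Fintype.sum_sum_type, q]

/-- The relations between the values of a linear functional at the vertices. -/
theorem rels (y : Vx m → ℝ) (hy : ∀ v, y v = ∑ k, b k * q m v k) :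
    ∑ o, y (Sum.inl o) = 0 ∧ ∑ o, y (Sum.inr (Sum.inl o)) = kap m * y (Sum.inl none) ∧
      ∑ o, y (Sum.inr (Sum.inr o)) = 0 := by
  refine ⟨?_, ?_, ?_⟩
  · rw [Fintype.sum_option, hy, val2, sum_congr rfl fun j _ => (hy _).trans (val1 b j)]
    ring
  · rw [Fintype.sum_option, hy, hy, val2, val4, sum_congr rfl fun j _ => (hy _).trans (val3 b j)]
    ring
  · rw [Fintype.sum_option, hy, val6, sum_congr rfl fun j _ => (hy _).trans (val5 b j)]
    ring

end Values

/-- Every assignment of values satisfying the relations comes from a linear functional. -/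
theorem exists_functional {m : ℕ} (y : Vx m → ℝ) (h1 : ∑ o, y (Sum.inl o) = 0)
    (h2 : ∑ o, y (Sum.inr (Sum.inl o)) = kap m * y (Sum.inl none))
    (h3 : ∑ o, y (Sum.inr (Sum.inr o)) = 0) :
    ∃ b : Kx m → ℝ, ∀ v, ∑ k, b k * q m v k = y v := by
  rw [Fintype.sum_option] at h1 h2 h3
  refine ⟨fun k => match k with
    | Sum.inl j => y (Sum.inl (some j))
    | Sum.inr (Sum.inl j) => y (Sum.inr (Sum.inl (some j)))
    | Sum.inr (Sum.inr j) => y (Sum.inr (Sum.inr (some j))), ?_⟩
  rintro ((_ | j) | ((_ | j) | (_ | j)))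
  · rw [val2]; linarith
  · rw [val1]
  · rw [val4]
    simp only
    have : ∑ j, y (Sum.inl (some j)) = - y (Sum.inl none) := by linarith
    rw [this]
    linarith
  · rw [val3]
  · rw [val6]; linarith
  · rw [val5]

/-- The linear relations between the vertices. -/
theorem relation {m : ℕ} (w : Vx m → ℝ) (hw : ∀ k, ∑ v, w v * q m v k = 0) :
    (∀ j, w (Sum.inl (some j)) = w (Sum.inl none) + kap m * w (Sum.inr (Sum.inl none))) ∧
    (∀ j, w (Sum.inr (Sum.inl (some j))) = w (Sum.inr (Sum.inl none))) ∧
    (∀ j, w (Sum.inr (Sum.inr (some j))) = w (Sum.inr (Sum.inr none))) := by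
  refine ⟨fun j => ?_, fun j => ?_, fun j => ?_⟩
  · have := hw (Sum.inl j)
    simp [Fintype.sum_sum_type, Fintype.sum_option, q] at this
    linarith
  · have := hw (Sum.inr (Sum.inl j))
    simp [Fintype.sum_sum_type, Fintype.sum_option, q] at this
    linarith
  · have := hw (Sum.inr (Sum.inr j))
    simp [Fintype.sum_sum_type, Fintype.sum_option, q] at this
    linarith

theorem cardK (m : ℕ) : Fintype.card (Kx m) = 2 * (m + 3) := by
  simp only [Fintype.card_sum, Fintype.card_fin]
  ring

theorem cardV (m : ℕ) : Fintype.card (Vx m) = 2 * (m + 3) + 3 := by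
  simp only [Fintype.card_sum, Fintype.card_fin, Fintype.card_option]
  ring

/-- A numbering of the coordinates. -/
noncomputable def eqv (m : ℕ) : Fin (2 * (m + 3)) ≃ Kx m :=
  (Fintype.equivFinOfCardEq (cardK m)).symm

/-- The vertices of the polytope. -/
noncomputable def pt (m : ℕ) (v : Vx m) : Fin (2 * (m + 3)) → ℝ := fun k => q m v (eqv m k)

theorem dot {m : ℕ} (a : Fin (2 * (m + 3)) → ℝ) (v : Vx m) :
    a ⬝ᵥ pt m v = ∑ k, a ((eqv m).symm k) * q m v k := by
  unfold dotProduct pt
  refine Fintype.sum_equiv (eqv m) _ _ fun k => ?_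
  rw [Equiv.symm_apply_apply]

theorem dot' {m : ℕ} (b : Kx m → ℝ) (v : Vx m) :
    (fun k => b (eqv m k)) ⬝ᵥ pt m v = ∑ k, b k * q m v k := by
  rw [dot]
  simp

/-- `F` contains none of the three blocks. -/
def Free {m : ℕ} (F : Finset (Vx m)) : Prop :=
  (¬ ∀ o, Sum.inl o ∈ F) ∧ (¬ ∀ o, Sum.inr (Sum.inl o) ∈ F) ∧ ¬ ∀ o, Sum.inr (Sum.inr o) ∈ F

theorem avg {O : Type} [Fintype O] (P : O → Prop) (hP : ¬ ∀ o, P o) (T : ℝ)
    (hT : T < Fintype.card O) :
    ∃ g : O → ℝ, (∀ o, P o → g o = 1) ∧ (∀ o, ¬ P o → g o < 1) ∧ ∑ o, g o = T := by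
  classical
  have hsr : (((univ.filter P).card : ℝ)) + ((univ.filter (fun o => ¬ P o)).card : ℝ)
      = Fintype.card O := by
    have := Finset.card_filter_add_card_filter_not (s := (univ : Finset O)) P
    rw [card_univ] at this
    exact_mod_cast this
  have hr : 0 < ((univ.filter (fun o => ¬ P o)).card : ℝ) := by
    push Not at hP
    obtain ⟨o, ho⟩ := hP
    have : 0 < (univ.filter (fun o => ¬ P o)).card :=
      card_pos.2 ⟨o, by simp [ho]⟩
    exact_mod_cast this
  refine ⟨fun o => if P o then 1 else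
    (T - (univ.filter P).card) / (univ.filter (fun o => ¬ P o)).card, ?_, ?_, ?_⟩
  · intro o ho; simp [ho]
  · intro o ho
    simp only [ho, if_false]
    rw [div_lt_one hr]
    linarith
  · rw [sum_ite, sum_const, sum_const, nsmul_eq_mul, nsmul_eq_mul, mul_one,
      mul_div_cancel₀ _ hr.ne']
    ring

theorem isFace_iff {m : ℕ} (F : Finset (Vx m)) : IsFace (pt m) F ↔ Free F := by
  constructor
  · rintro ⟨hne, a, c, h1, h2⟩
    obtain ⟨r1, r2, r3⟩ := rels (fun k => a ((eqv m).symm k)) (fun v => a ⬝ᵥ pt m v)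
      (fun v => dot a v)
    have hle : ∀ v, a ⬝ᵥ pt m v ≤ c := by
      intro v
      by_cases hv : v ∈ F
      · exact (h1 v hv).le
      · exact (h2 v hv).le
    have hc : 0 ≤ c := by
      have := sum_le_sum (s := (univ : Finset (Option (Fin (m + 2)))))
        (fun o _ => hle (Sum.inl o))
      rw [r1, sum_const, nsmul_eq_mul] at this
      by_contra hneg
      push Not at hneg
      have hcard : (0 : ℝ) < ((univ : Finset (Option (Fin (m + 2)))).card : ℝ) := by
        simp; positivity
      nlinarith
    have key : c = 0 → False := by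
      intro h0
      apply hne
      rw [eq_univ_iff_forall]
      intro v
      by_contra hv
      have hlt := h2 v hv
      rw [h0] at hlt hle
      have z1 : ∀ o, a ⬝ᵥ pt m (Sum.inl o) = 0 := by
        intro o
        exact (sum_eq_zero_iff_of_nonpos (fun o _ => hle (Sum.inl o))).1 r1 o (mem_univ _)
      have z3 : ∀ o, a ⬝ᵥ pt m (Sum.inr (Sum.inr o)) = 0 := by
        intro o
        exact (sum_eq_zero_iff_of_nonpos (fun o _ => hle (Sum.inr (Sum.inr o)))).1 r3 o
          (mem_univ _)
      rw [z1, mul_zero] at r2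
      have z2 : ∀ o, a ⬝ᵥ pt m (Sum.inr (Sum.inl o)) = 0 := by
        intro o
        exact (sum_eq_zero_iff_of_nonpos (fun o _ => hle (Sum.inr (Sum.inl o)))).1 r2 o
          (mem_univ _)
      rcases v with o | o | o
      · rw [z1] at hlt; exact lt_irrefl _ hlt
      · rw [z2] at hlt; exact lt_irrefl _ hlt
      · rw [z3] at hlt; exact lt_irrefl _ hlt
    refine ⟨?_, ?_, ?_⟩
    · intro hall
      apply key
      rw [sum_congr rfl fun o _ => h1 _ (hall o), sum_const, nsmul_eq_mul] at r1
      simp at r1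
      rcases r1 with r1 | r1
      · exfalso
        have : (0 : ℝ) ≤ m := Nat.cast_nonneg m
        linarith
      · exact r1
    · intro hall
      apply key
      rw [sum_congr rfl fun o _ => h1 _ (hall o), sum_const, nsmul_eq_mul] at r2
      simp at r2
      have hk := kap_lt m
      have hk0 := kap_nonneg m
      have hu := hle (Sum.inl none)
      nlinarith [mul_le_mul_of_nonneg_left hu hk0]
    · intro hall
      apply key
      rw [sum_congr rfl fun o _ => h1 _ (hall o), sum_const, nsmul_eq_mul] at r3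
      simp at r3
      rcases r3 with r3 | r3
      · exfalso
        have : (0 : ℝ) ≤ m := Nat.cast_nonneg m
        linarith
      · exact r3
  · rintro ⟨f1, f2, f3⟩
    refine ⟨fun h => f1 fun o => h ▸ mem_univ _, ?_⟩
    obtain ⟨g1, a1, b1, c1⟩ := avg (fun o => Sum.inl o ∈ F) f1 0 (by simp; positivity)
    have hg1 : g1 none ≤ 1 := by
      by_cases h : (Sum.inl none) ∈ F
      · exact (a1 _ h).le
      · exact (b1 _ h).le
    obtain ⟨g2, a2, b2, c2⟩ := avg (fun o => Sum.inr (Sum.inl o) ∈ F) f2 (kap m * g1 none) (by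
      simp
      have := mul_le_mul_of_nonneg_left hg1 (kap_nonneg m)
      have := kap_lt m
      linarith)
    obtain ⟨g3, a3, b3, c3⟩ := avg (fun o => Sum.inr (Sum.inr o) ∈ F) f3 0 (by simp; positivity)
    obtain ⟨b, hb⟩ := exists_functional (m := m)
      (fun v => match v with
        | Sum.inl o => g1 o
        | Sum.inr (Sum.inl o) => g2 o
        | Sum.inr (Sum.inr o) => g3 o) c1 c2 c3
    refine ⟨fun k => b (eqv m k), 1, ?_, ?_⟩
    · intro v hv
      rw [dot', hb]
      rcases v with o | o | o
      · exact a1 o hv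
      · exact a2 o hv
      · exact a3 o hv
    · intro v hv
      rw [dot', hb]
      rcases v with o | o | o
      · exact b1 o hv
      · exact b2 o hv
      · exact b3 o hv

theorem free_of_subset {m : ℕ} {F G : Finset (Vx m)} (h : F ⊆ G) (hG : Free G) : Free F :=
  ⟨fun k => hG.1 fun o => h (k o), fun k => hG.2.1 fun o => h (k o),
    fun k => hG.2.2 fun o => h (k o)⟩

/-- The first block. -/
def B1 (m : ℕ) : Finset (Vx m) := univ.map ⟨Sum.inl, Sum.inl_injective⟩

/-- The second block. -/
def B2 (m : ℕ) : Finset (Vx m) :=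
  univ.map ⟨fun o => Sum.inr (Sum.inl o), fun _ _ h => Sum.inl_injective (Sum.inr_injective h)⟩

/-- The third block. -/
def B3 (m : ℕ) : Finset (Vx m) :=
  univ.map ⟨fun o => Sum.inr (Sum.inr o), fun _ _ h => Sum.inr_injective (Sum.inr_injective h)⟩

theorem mem_B1 {m : ℕ} (o : Option (Fin (m + 2))) : (Sum.inl o : Vx m) ∈ B1 m :=
  mem_map.2 ⟨o, mem_univ _, rfl⟩

theorem mem_B2 {m : ℕ} (o : Option (Fin 2)) : (Sum.inr (Sum.inl o) : Vx m) ∈ B2 m :=
  mem_map.2 ⟨o, mem_univ _, rfl⟩

theorem mem_B3 {m : ℕ} (o : Option (Fin (m + 2))) : (Sum.inr (Sum.inr o) : Vx m) ∈ B3 m :=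
  mem_map.2 ⟨o, mem_univ _, rfl⟩

theorem sub1 {m : ℕ} {M : Finset (Vx m)} (h : ∀ o, Sum.inl o ∈ M) : B1 m ⊆ M := by
  intro v hv
  obtain ⟨o, -, rfl⟩ := mem_map.1 hv
  exact h o

theorem sub2 {m : ℕ} {M : Finset (Vx m)} (h : ∀ o, Sum.inr (Sum.inl o) ∈ M) : B2 m ⊆ M := by
  intro v hv
  obtain ⟨o, -, rfl⟩ := mem_map.1 hv
  exact h o

theorem sub3 {m : ℕ} {M : Finset (Vx m)} (h : ∀ o, Sum.inr (Sum.inr o) ∈ M) : B3 m ⊆ M := by
  intro v hv
  obtain ⟨o, -, rfl⟩ := mem_map.1 hv
  exact h o

theorem missing_card {m : ℕ} (M : Finset (Vx m)) (hM : IsMissing (pt m) M) :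
    M.card ≤ m + 3 := by
  obtain ⟨h1, h2⟩ := hM
  rw [isFace_iff] at h1
  have key : ∀ T : Finset (Vx m), T ⊆ M → ¬ Free T → T = M := by
    intro T hT hf
    by_contra hne
    exact hf ((isFace_iff T).1 (h2 T (lt_of_le_of_ne hT hne)))
  have h3 : (∀ o, Sum.inl o ∈ M) ∨ (∀ o, Sum.inr (Sum.inl o) ∈ M) ∨
      (∀ o, Sum.inr (Sum.inr o) ∈ M) := by
    unfold Free at h1
    tauto
  rcases h3 with h | h | h
  · rw [← key _ (sub1 h) fun hf => hf.1 mem_B1]
    simp [B1]
  · rw [← key _ (sub2 h) fun hf => hf.2.1 mem_B2]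
    simp [B2]
  · rw [← key _ (sub3 h) fun hf => hf.2.2 mem_B3]
    simp [B3]

theorem relation' {m : ℕ} (w : Vx m → ℝ) (hw : ∑ v, w v • pt m v = 0) :
    (∀ j, w (Sum.inl (some j)) = w (Sum.inl none) + kap m * w (Sum.inr (Sum.inl none))) ∧
    (∀ j, w (Sum.inr (Sum.inl (some j))) = w (Sum.inr (Sum.inl none))) ∧
    (∀ j, w (Sum.inr (Sum.inr (some j))) = w (Sum.inr (Sum.inr none))) := by
  apply relation
  intro k
  have := congrFun hw ((eqv m).symm k)
  simpa [Finset.sum_apply, pt] using this

/-- A linear relation which vanishes outside a face is trivial. -/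
theorem relation_zero {m : ℕ} (F : Finset (Vx m)) (hF : Free F) (w : Vx m → ℝ)
    (hw : ∑ v, w v • pt m v = 0) (hout : ∀ v, v ∉ F → w v = 0) : ∀ v, w v = 0 := by
  obtain ⟨e1, e2, e3⟩ := relation' w hw
  have a2 : w (Sum.inr (Sum.inl none)) = 0 := by
    by_contra h
    apply hF.2.1
    rintro (_ | j) <;> by_contra hn
    · exact h (hout _ hn)
    · exact h (e2 j ▸ hout _ hn)
  have a3 : w (Sum.inr (Sum.inr none)) = 0 := by
    by_contra h
    apply hF.2.2
    rintro (_ | j) <;> by_contra hn
    · exact h (hout _ hn)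
    · exact h (e3 j ▸ hout _ hn)
  rw [a2, mul_zero] at e1
  simp only [add_zero] at e1
  have a1 : w (Sum.inl none) = 0 := by
    by_contra h
    apply hF.1
    rintro (_ | j) <;> by_contra hn
    · exact h (hout _ hn)
    · exact h (e1 j ▸ hout _ hn)
  rintro ((_ | j) | ((_ | j) | (_ | j)))
  · exact a1
  · exact (e1 j).trans a1
  · exact a2
  · exact (e2 j).trans a2
  · exact a3
  · exact (e3 j).trans a3

theorem affineIndep {m : ℕ} (F : Finset (Vx m)) (hF : Free F) :
    AffineIndependent ℝ (fun v : F => pt m v) := by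
  rw [affineIndependent_iff]
  intro s w _ hs
  -- extend the weights by zero
  let w' : Vx m → ℝ := fun v => if h : v ∈ F then (if (⟨v, h⟩ : F) ∈ s then w ⟨v, h⟩ else 0) else 0
  have hin : ∀ v : F, v ∈ s → w' v = w v := by
    intro v hv
    simp only [w']
    rw [dif_pos v.2, if_pos hv]
  have hout : ∀ v : Vx m, v ∉ F → w' v = 0 := fun v hv => dif_neg hv
  have hw' : ∑ v, w' v • pt m v = 0 := by
    have h1 : ∑ v, w' v • pt m v = ∑ v ∈ F, w' v • pt m v := by
      symm
      apply sum_subset (subset_univ _)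
      intro v _ hv
      rw [hout v hv, zero_smul]
    rw [h1, ← sum_coe_sort F (fun v => w' v • pt m v)]
    have h2 : ∑ v : F, w' v • pt m v = ∑ v ∈ s, w' v • pt m v := by
      symm
      apply sum_subset (subset_univ _)
      intro v _ hv
      have : w' v = 0 := by
        simp only [w']
        rw [dif_pos v.2, if_neg hv]
      rw [this, zero_smul]
    rw [h2, ← hs]
    exact sum_congr rfl fun v hv => by rw [hin v hv]
  intro v hv
  rw [← hin v hv]
  exact relation_zero F hF w' hw' hout v

theorem full_dim (m : ℕ) : affineSpan ℝ (Set.range (pt m)) = ⊤ := by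
  rw [AffineSubspace.affineSpan_eq_top_iff_vectorSpan_eq_top_of_nonempty ℝ
    (Fin (2 * (m + 3)) → ℝ) (Fin (2 * (m + 3)) → ℝ) (Set.range_nonempty (pt m)), eq_top_iff]
  intro x _
  have hm : ∀ u v, pt m u - pt m v ∈ vectorSpan ℝ (Set.range (pt m)) := fun u v =>
    vsub_mem_vectorSpan ℝ (Set.mem_range_self u) (Set.mem_range_self v)
  -- the centroid of the third block is zero
  have h0 : ∑ o, pt m (Sum.inr (Sum.inr o)) = 0 := by
    funext k
    rw [Finset.sum_apply, Fintype.sum_option]
    simp only [pt, Pi.zero_apply]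
    rcases h : eqv m k with j | j | j <;> simp [q]
  have hv : ∀ v, pt m v ∈ vectorSpan ℝ (Set.range (pt m)) := by
    intro v
    have h1 : ((m : ℝ) + 3) • pt m v = ∑ o, (pt m v - pt m (Sum.inr (Sum.inr o))) := by
      rw [sum_sub_distrib, h0, sub_zero, sum_const, ← Nat.cast_smul_eq_nsmul ℝ]
      simp
      ring_nf
    have h2 : ((m : ℝ) + 3) • pt m v ∈ vectorSpan ℝ (Set.range (pt m)) := by
      rw [h1]
      exact Submodule.sum_mem _ fun o _ => hm _ _
    have h3 : (m : ℝ) + 3 ≠ 0 := by positivity
    have := Submodule.smul_mem _ ((m : ℝ) + 3)⁻¹ h2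
    rwa [smul_smul, inv_mul_cancel₀ h3, one_smul] at this
  have hx : x = ∑ k : Kx m, x ((eqv m).symm k) • pt m (match k with
      | Sum.inl j => Sum.inl (some j)
      | Sum.inr (Sum.inl j) => Sum.inr (Sum.inl (some j))
      | Sum.inr (Sum.inr j) => Sum.inr (Sum.inr (some j))) := by
    funext l
    obtain ⟨l', rfl⟩ := (eqv m).symm.surjective l
    rw [Finset.sum_apply]
    simp only [Pi.smul_apply, smul_eq_mul, pt, Equiv.apply_symm_apply, Fintype.sum_sum_type]
    rcases l' with j | j | j <;> simp [q]
  rw [hx]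
  exact Submodule.sum_mem _ fun k _ => Submodule.smul_mem _ _ (hv _)

theorem not_three {α : Type} [DecidableEq α] {u v a b c : α} (hab : a ≠ b) (hac : a ≠ c)
    (hbc : b ≠ c) (ha : a ∈ ({u, v} : Finset α)) (hb : b ∈ ({u, v} : Finset α))
    (hc : c ∈ ({u, v} : Finset α)) : False := by
  simp only [mem_insert, mem_singleton] at ha hb hc
  rcases ha with ha | ha <;> rcases hb with hb | hb <;> rcases hc with hc | hc <;>
    first
      | exact hab (ha.trans hb.symm)
      | exact hac (ha.trans hc.symm)
      | exact hbc (hb.trans hc.symm)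

theorem free_pair {m : ℕ} (u v : Vx m) : Free ({u, v} : Finset (Vx m)) :=
  ⟨fun h => not_three (by simp) (by simp) (by simp) (h none) (h (some 0)) (h (some 1)),
    fun h => not_three (by simp) (by simp) (by simp) (h none) (h (some 0)) (h (some 1)),
    fun h => not_three (by simp) (by simp) (by simp) (h none) (h (some 0)) (h (some 1))⟩

theorem simplicial0 (m : ℕ) : IsSimplicialPolytope (pt m) := by
  refine ⟨?_, ?_, full_dim m, fun F hF => affineIndep F ((isFace_iff F).1 hF)⟩
  · intro u v h
    by_contra hne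
    have := relation_zero {u, v} (free_pair u v)
      (fun x => if x = u then 1 else if x = v then -1 else 0) ?_ ?_ u
    · simp at this
    · have h1 : ∀ x : Vx m, (if x = u then (1 : ℝ) else if x = v then -1 else 0) • pt m x
          = (if x = u then pt m u else 0) - (if x = v then pt m u else 0) := by
        intro x
        by_cases h1 : x = u
        · subst h1
          simp [hne]
        · by_cases h2 : x = v
          · subst h2
            simp [h1, h]
          · simp [h1, h2]
      rw [sum_congr rfl fun x _ => h1 x, sum_sub_distrib]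
      simp
    · intro x hx
      simp only [mem_insert, mem_singleton, not_or] at hx
      simp [hx.1, hx.2]
  · intro v
    rw [isFace_iff]
    have := free_pair v v
    simpa using this

/-! ### The stresses -/

/-- The vertices of the first block other than the first and the special one. -/
def A1 (m : ℕ) : Finset (Vx m) :=
  (univ.erase (0 : Fin (m + 2))).map
    ⟨fun j => Sum.inl (some j), fun _ _ h => Option.some_injective _ (Sum.inl_injective h)⟩

/-- The face which takes no part in any stress. -/
def F0 (m : ℕ) : Finset (Vx m) :=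
  insert (Sum.inr (Sum.inl none)) (insert (Sum.inr (Sum.inr none)) (A1 m))

theorem card_F0 (m : ℕ) : (F0 m).card = m + 3 := by
  unfold F0
  rw [card_insert_of_notMem, card_insert_of_notMem]
  · simp [A1]
  · simp [A1]
  · simp [A1]

theorem free_F0 (m : ℕ) : Free (F0 m) := by
  refine ⟨fun h => ?_, fun h => ?_, fun h => ?_⟩
  · have := h none
    simp only [F0, A1, mem_insert, reduceCtorEq, mem_map, mem_erase, false_or] at this
    obtain ⟨a, -, ha⟩ := this
    exact absurd (Sum.inl_injective ha) (by simp)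
  · have := h (some 0)
    simp [F0, A1] at this
  · have := h (some 0)
    simp [F0, A1] at this

/-- The linear forms and the nonfaces. -/
def gens (m : ℕ) : Set (MvPolynomial (Vx m) ℝ) :=
  insert (∑ v, C (1 : ℝ) * X v) (Set.range (fun k => ∑ v, C (pt m v k) * X v)
    ∪ {∏ v ∈ B1 m, X v, ∏ v ∈ B2 m, X v, ∏ v ∈ B3 m, X v})

theorem F0_mem (m : ℕ) : (∏ v ∈ F0 m, (X v : MvPolynomial (Vx m) ℝ)) ∈ Ideal.span (gens m) := by
  rw [← Ideal.Quotient.eq_zero_iff_mem]
  set π := Ideal.Quotient.mk (Ideal.span (gens m)) with hπ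
  have hg : ∀ g ∈ gens m, π g = 0 := fun g hg =>
    Ideal.Quotient.eq_zero_iff_mem.2 (Ideal.subset_span hg)
  have hsm : ∀ (c : ℝ) (v : Vx m), π (C c * X v) = c • π (X v) := by
    intro c v
    rw [← smul_eq_C_mul]
    rfl
  have hlin : ∀ θ : Vx m → ℝ, (∑ v, C (θ v) * X v) ∈ gens m → ∑ v, θ v • π (X v) = 0 := by
    intro θ h
    rw [← hg _ h, map_sum]
    exact sum_congr rfl fun v _ => (hsm _ _).symm
  have hco : ∀ k : Kx m, ∑ v, q m v k • π (X v) = 0 := by
    intro k
    have := hlin (fun v => pt m v ((eqv m).symm k)) (Or.inr (Or.inl ⟨_, rfl⟩))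
    simpa [pt] using this
  have hs : ∑ v, π (X v) = 0 := by
    have := hlin (fun _ => 1) (Or.inl rfl)
    simpa using this
  have e1 : ∀ j, π (X (Sum.inl (some j))) = π (X (Sum.inl none))
      + kap m • π (X (Sum.inr (Sum.inl none))) := by
    intro j
    have := hco (Sum.inl j)
    simp [Fintype.sum_sum_type, Fintype.sum_option, q, ite_smul] at this
    linear_combination this
  have e2 : ∀ j, π (X (Sum.inr (Sum.inl (some j)))) = π (X (Sum.inr (Sum.inl none))) := by
    intro j
    have := hco (Sum.inr (Sum.inl j))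
    simp [Fintype.sum_sum_type, Fintype.sum_option, q, ite_smul] at this
    linear_combination this
  have e3 : ∀ j, π (X (Sum.inr (Sum.inr (some j)))) = π (X (Sum.inr (Sum.inr none))) := by
    intro j
    have := hco (Sum.inr (Sum.inr j))
    simp [Fintype.sum_sum_type, Fintype.sum_option, q, ite_smul] at this
    linear_combination this
  have key := alg m (π (X (Sum.inl none)) + kap m • π (X (Sum.inr (Sum.inl none))))
    (π (X (Sum.inl none))) (π (X (Sum.inr (Sum.inl none)))) (π (X (Sum.inr (Sum.inr none))))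
    (kap m) (kap_eq m) rfl ?_ ?_ ?_ ?_
  · unfold F0
    rw [prod_insert (by simp [A1]), prod_insert (by simp [A1]), map_mul, map_mul, map_prod, A1,
      prod_map]
    have e4 : ∏ j ∈ univ.erase (0 : Fin (m + 2)), π (X (Sum.inl (some j)))
        = (π (X (Sum.inl none)) + kap m • π (X (Sum.inr (Sum.inl none)))) ^ (m + 1) := by
      rw [prod_congr rfl fun j _ => e1 j, prod_const, card_erase_of_mem (mem_univ _), card_univ,
        Fintype.card_fin, show m + 2 - 1 = m + 1 from rfl]
    change _ * (_ * ∏ j ∈ univ.erase (0 : Fin (m + 2)), π (X (Sum.inl (some j)))) = 0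
    rw [e4]
    linear_combination key
  · simp only [Fintype.sum_sum_type, Fintype.sum_option, e1, e2, e3, sum_const, card_univ,
      Fintype.card_fin, ← Nat.cast_smul_eq_nsmul ℝ] at hs
    rw [← hs]
    push_cast
    module
  · have := hg (∏ v ∈ B1 m, X v) (Or.inr (Or.inr (Or.inl rfl)))
    rw [map_prod, B1, prod_map] at this
    replace this : ∏ o, π (X (Sum.inl o)) = 0 := this
    simp only [Fintype.prod_option, e1, prod_const, card_univ, Fintype.card_fin] at this
    rw [mul_comm]
    exact this
  · have := hg (∏ v ∈ B2 m, X v) (Or.inr (Or.inr (Or.inr (Or.inl rfl))))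
    rw [map_prod, B2, prod_map] at this
    replace this : ∏ o, π (X (Sum.inr (Sum.inl o))) = 0 := this
    simp only [Fintype.prod_option, e2, prod_const, card_univ, Fintype.card_fin] at this
    rw [← this]; ring
  · have := hg (∏ v ∈ B3 m, X v) (Or.inr (Or.inr (Or.inr (Or.inr rfl))))
    rw [map_prod, B3, prod_map] at this
    replace this : ∏ o, π (X (Sum.inr (Sum.inr o))) = 0 := this
    simp only [Fintype.prod_option, e3, prod_const, card_univ, Fintype.card_fin] at this
    rw [← this]; ring

theorem stress_zero {m i : ℕ} (f : MvPolynomial (Vx m) ℝ) (hf : IsAffineStress i (pt m) f) :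
    f.coeff (xF (F0 m)) = 0 := by
  have hall : ∀ x ∈ gens m, ∀ g, Lam f (x * g) = 0 := by
    rintro x (rfl | ⟨k, rfl⟩ | rfl | rfl | rfl) g
    · refine Lam_lin f (fun _ => 1) ?_ g
      rw [← hf.sum]
      exact sum_congr rfl fun v _ => by rw [C_1, one_mul]
    · exact Lam_lin f (fun v => pt m v k) (hf.coord k) g
    · refine Lam_nonface f _ (fun n hn hsub => ?_) g
      exact ((isFace_iff _).1 (hf.faces n hn)).1 fun o => hsub (mem_B1 o)
    · refine Lam_nonface f _ (fun n hn hsub => ?_) g
      exact ((isFace_iff _).1 (hf.faces n hn)).2.1 fun o => hsub (mem_B2 o)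
    · refine Lam_nonface f _ (fun n hn hsub => ?_) g
      exact ((isFace_iff _).1 (hf.faces n hn)).2.2 fun o => hsub (mem_B3 o)
  have h := Lam_ideal f (gens m) hall _ (F0_mem m)
  have h1 : (∏ v ∈ F0 m, (X v : MvPolynomial (Vx m) ℝ)) = monomial (xF (F0 m)) 1 := by
    unfold xF
    rw [monomial_sum_one]
    rfl
  rw [h1, Lam_monomial] at h
  have h2 : fct (xF (F0 m)) ≠ 0 := by
    unfold fct
    exact prod_ne_zero_iff.2 fun v _ => by positivity
  exact (mul_eq_zero.1 h).resolve_left h2

/-! ### Polytopes with at most `d + 2` vertices -/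

section Small

variable {V : Type} [Fintype V] [DecidableEq V] {d : ℕ}

/-- The values of an affine function at the vertices. -/
noncomputable def evalMap (p : V → Fin d → ℝ) : ((Fin d → ℝ) × ℝ) →ₗ[ℝ] (V → ℝ) where
  toFun x := fun v => x.1 ⬝ᵥ p v + x.2
  map_add' x y := by
    funext v
    simp only [Prod.fst_add, Prod.snd_add, add_dotProduct, Pi.add_apply]
    ring
  map_smul' c x := by
    funext v
    simp only [Prod.smul_fst, Prod.smul_snd, smul_dotProduct, Pi.smul_apply, smul_eq_mul,
      RingHom.id_apply]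
    ring

theorem evalMap_inj (p : V → Fin d → ℝ) (hp : affineSpan ℝ (Set.range p) = ⊤) :
    Function.Injective (evalMap p) := by
  rw [← LinearMap.ker_eq_bot, LinearMap.ker_eq_bot']
  rintro ⟨a, c⟩ h
  have h1 : ∀ v, a ⬝ᵥ p v + c = 0 := fun v => congrFun h v
  have h2 : ∀ x : Fin d → ℝ, a ⬝ᵥ x + c = 0 := by
    intro x
    have hx : x ∈ affineSpan ℝ (Set.range p) := by rw [hp]; trivial
    refine affineSpan_induction (p := fun x : Fin d → ℝ => a ⬝ᵥ x + c = 0) hx ?_ ?_
    · rintro _ ⟨v, rfl⟩
      exact h1 v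
    · intro r u v w hu hv hw
      simp only [vsub_eq_sub, vadd_eq_add, dotProduct_add, dotProduct_smul, dotProduct_sub,
        smul_eq_mul]
      linear_combination r * hu - r * hv + hw
  have hc : c = 0 := by
    have := h2 0
    simpa using this
  have ha : a = 0 := by
    funext k
    have := h2 (Pi.single k 1)
    simpa [hc] using this
  rw [ha, hc]
  rfl

/-- The set of values of the affine functions is the orthogonal space of an affine dependence. -/
theorem range_eq (p : V → Fin d → ℝ) (hp : affineSpan ℝ (Set.range p) = ⊤)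
    (hcard : Fintype.card V ≤ d + 2) (μ : V → ℝ) (hμ : μ ≠ 0) (h0 : ∑ v, μ v = 0)
    (h1 : ∑ v, μ v • p v = 0) :
    Fintype.card V = d + 2 ∧
      ∀ y : V → ℝ, ∑ v, μ v * y v = 0 → ∃ a c, ∀ v, a ⬝ᵥ p v + c = y v := by
  set φ : Module.Dual ℝ (V → ℝ) := ∑ v, μ v • LinearMap.proj v with hφ
  have hφv : ∀ y, φ y = ∑ v, μ v * y v := by
    intro y
    simp [hφ]
  have hφ0 : φ ≠ 0 := by
    intro h
    apply hμ
    funext v
    have := congrArg (fun ψ : Module.Dual ℝ (V → ℝ) => ψ (Pi.single v 1)) h
    simp only [hφv] at this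
    simpa [Pi.single_apply] using this
  have hk := Module.Dual.finrank_ker_add_one_of_ne_zero hφ0
  rw [Module.finrank_fintype_fun_eq_card] at hk
  have hr := LinearMap.finrank_range_of_inj (evalMap_inj p hp)
  rw [Module.finrank_prod, Module.finrank_fintype_fun_eq_card, Fintype.card_fin,
    Module.finrank_self] at hr
  have hle : LinearMap.range (evalMap p) ≤ LinearMap.ker φ := by
    rintro _ ⟨⟨a, c⟩, rfl⟩
    rw [LinearMap.mem_ker, hφv]
    have e1 : ∀ v, μ v * evalMap p (a, c) v = a ⬝ᵥ (μ v • p v) + μ v * c := by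
      intro v
      simp only [evalMap, LinearMap.coe_mk, AddHom.coe_mk, dotProduct_smul, smul_eq_mul]
      ring
    rw [sum_congr rfl fun v _ => e1 v, sum_add_distrib, ← dotProduct_sum, h1, ← sum_mul, h0]
    simp
  have hfin := Submodule.finrank_mono hle
  have heq : LinearMap.range (evalMap p) = LinearMap.ker φ :=
    Submodule.eq_of_le_of_finrank_le hle (by omega)
  refine ⟨by omega, fun y hy => ?_⟩
  have : y ∈ LinearMap.range (evalMap p) := by
    rw [heq, LinearMap.mem_ker, hφv, hy]
  obtain ⟨⟨a, c⟩, h⟩ := this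
  exact ⟨a, c, fun v => congrFun h v⟩

/-- A set is a face if some affine function is `1` on it and smaller elsewhere. -/
theorem face_of (p : V → Fin d → ℝ) (G : Finset V) (hG : G ≠ univ) (y : V → ℝ)
    (h : ∃ a c, ∀ v, a ⬝ᵥ p v + c = y v) (h1 : ∀ v ∈ G, y v = 1) (h2 : ∀ v, v ∉ G → y v < 1) :
    IsFace p G := by
  obtain ⟨a, c, hac⟩ := h
  refine ⟨hG, a, 1 - c, fun v hv => ?_, fun v hv => ?_⟩
  · have := hac v
    rw [h1 v hv] at this
    linarith
  · have := hac v
    have := h2 v hv
    linarith

theorem pow_pderiv (μ : V → ℝ) (i : ℕ) (v : V) :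
    pderiv v ((∑ w, C (μ w) * X w) ^ i : MvPolynomial V ℝ)
      = C (i * μ v) * (∑ w, C (μ w) * X w) ^ (i - 1) := by
  have h : pderiv v (∑ w, C (μ w) * X w : MvPolynomial V ℝ) = C (μ v) := by
    rw [map_sum, Finset.sum_eq_single v]
    · rw [pderiv_C_mul, pderiv_X_self, mul_one]
    · intro w _ hw
      rw [pderiv_C_mul, pderiv_X_of_ne hw, mul_zero]
    · intro h; exact absurd (mem_univ v) h
  rw [pderiv_pow, h, C_mul]
  simp only [map_natCast]
  ring

theorem coeff_pow (μ : V → ℝ) (F : Finset V) :
    ((∑ w, C (μ w) * X w) ^ F.card : MvPolynomial V ℝ).coeff (xF F)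
      = F.card.factorial * ∏ v ∈ F, μ v := by
  induction F using Finset.induction_on with
  | empty => simp [xF]
  | insert v F hv ih =>
    have e1 : xF (insert v F) = xF F + Finsupp.single v 1 := by
      unfold xF
      rw [sum_insert hv, add_comm]
    have e2 : (xF F) v = 0 := by
      unfold xF
      rw [Finsupp.finsetSum_apply]
      apply sum_eq_zero
      intro w hw
      have : w ≠ v := fun h => hv (h ▸ hw)
      simp [Finsupp.single_apply, this]
    have e3 := coeff_pderiv (R := ℝ) (i := v)
      ((∑ w, C (μ w) * X w) ^ (insert v F).card : MvPolynomial V ℝ) (xF F)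
    rw [e2] at e3
    rw [e1, ← mul_one (coeff _ _)]
    have e4 : ((1 : ℝ)) = ((0 : ℕ) : ℝ) + 1 := by norm_num
    rw [e4, ← e3, pow_pderiv, coeff_C_mul, card_insert_of_notMem hv, Nat.add_sub_cancel, ih,
      prod_insert hv, Nat.factorial_succ]
    push_cast
    ring

/-- With at most `d + 2` vertices and no large missing faces there is an affine dependence. -/
theorem exists_dep (p : V → Fin d → ℝ) (i : ℕ) (hi : 1 ≤ i) (hid : i ≤ d)
    (hp : affineSpan ℝ (Set.range p) = ⊤) (hm : NoLargeMissing i p) :
    ∃ μ : V → ℝ, μ ≠ 0 ∧ ∑ v, μ v = 0 ∧ ∑ v, μ v • p v = 0 := by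
  by_contra hno
  push Not at hno
  set Φ : (V → ℝ) →ₗ[ℝ] ((Fin d → ℝ) × ℝ) :=
    { toFun := fun μ => (∑ v, μ v • p v, ∑ v, μ v)
      map_add' := by
        intro a b
        simp [add_smul, sum_add_distrib]
      map_smul' := by
        intro c a
        simp [mul_smul, smul_sum, mul_sum] } with hΦ
  have hinj : Function.Injective Φ := by
    rw [← LinearMap.ker_eq_bot, LinearMap.ker_eq_bot']
    intro μ h
    by_contra hne
    exact hno μ hne (congrArg Prod.snd h) (congrArg Prod.fst h)
  have h1 := LinearMap.finrank_le_finrank_of_injective hinj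
  have hr := LinearMap.finrank_range_of_inj (evalMap_inj p hp)
  rw [Module.finrank_prod, Module.finrank_fintype_fun_eq_card, Fintype.card_fin,
    Module.finrank_self] at hr
  rw [Module.finrank_prod, Module.finrank_fintype_fun_eq_card, Module.finrank_fintype_fun_eq_card,
    Fintype.card_fin, Module.finrank_self] at h1
  have htop : LinearMap.range (evalMap p) = ⊤ := by
    apply Submodule.eq_top_of_finrank_eq
    have := Submodule.finrank_le (LinearMap.range (evalMap p))
    rw [Module.finrank_fintype_fun_eq_card] at this ⊢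
    omega
  have hcard : d + 1 ≤ Fintype.card V := by
    have := Submodule.finrank_le (LinearMap.range (evalMap p))
    rw [Module.finrank_fintype_fun_eq_card] at this
    omega
  have hface : ∀ G : Finset V, G ≠ univ → IsFace p G := by
    intro G hG
    classical
    have hy : (fun v => if v ∈ G then (1 : ℝ) else 0) ∈ LinearMap.range (evalMap p) := by
      rw [htop]; trivial
    obtain ⟨⟨a, c⟩, h⟩ := hy
    refine face_of p G hG _ ⟨a, c, fun v => congrFun h v⟩ ?_ ?_
    · intro v hv; simp [hv]
    · intro v hv; simp [hv]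
  have := hm univ ⟨fun h => h.1 rfl, fun N hN => hface N hN.ne⟩
  rw [card_univ] at this
  omega

/-- No counterexample has at most `d + 2` vertices. -/
theorem small (p : V → Fin d → ℝ) (i : ℕ) (hi : 1 ≤ i) (hid : i ≤ d)
    (hp : IsSimplicialPolytope p) (hm : NoLargeMissing i p) (hcard : Fintype.card V ≤ d + 2)
    (F : Finset V) (hFi : F.card = i) :
    ∃ f, IsAffineStress i p f ∧ f.coeff (xF F) ≠ 0 := by
  obtain ⟨μ, hμ, h0, h1⟩ := exists_dep p i hi hid hp.full hm
  obtain ⟨hV, hy⟩ := range_eq p hp.full hcard μ hμ h0 h1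
  set P : Finset V := univ.filter (fun v => 0 < μ v) with hP
  set N : Finset V := univ.filter (fun v => μ v < 0) with hN
  have hPne : P.Nonempty := by
    by_contra h
    rw [not_nonempty_iff_eq_empty] at h
    have hle : ∀ v ∈ (univ : Finset V), μ v ≤ 0 := by
      intro v _
      by_contra hv
      have : v ∈ P := by simp [hP]; linarith
      rw [h] at this
      simp at this
    exact hμ (funext fun v => (sum_eq_zero_iff_of_nonpos hle).1 h0 v (mem_univ _))
  have hNne : N.Nonempty := by
    by_contra h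
    rw [not_nonempty_iff_eq_empty] at h
    have hle : ∀ v ∈ (univ : Finset V), 0 ≤ μ v := by
      intro v _
      by_contra hv
      have : v ∈ N := by simp [hN]; linarith
      rw [h] at this
      simp at this
    exact hμ (funext fun v => (sum_eq_zero_iff_of_nonneg hle).1 h0 v (mem_univ _))
  -- the dependence has full support
  have hne : ∀ v, μ v ≠ 0 := by
    by_contra hex
    push Not at hex
    obtain ⟨v₀, hv₀⟩ := hex
    set G : Finset V := univ.filter (fun v => μ v ≠ 0) with hG
    have hGne : G ≠ univ := by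
      intro h
      have : v₀ ∈ G := h ▸ mem_univ _
      simp [hG] at this
      exact this hv₀
    have hGface : IsFace p G := by
      refine face_of p G hGne (fun v => if μ v ≠ 0 then 1 else 0) (hy _ ?_) ?_ ?_
      · refine Eq.trans (sum_congr rfl fun v _ => ?_) h0
        by_cases hv : μ v = 0 <;> simp [hv]
      · intro v hv
        simp only [hG, mem_filter, mem_univ, true_and] at hv
        simp [hv]
      · intro v hv
        simp only [hG, mem_filter, mem_univ, true_and, not_not] at hv
        simp [hv]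
    have hind := hp.simplicial G hGface
    rw [affineIndependent_iff] at hind
    obtain ⟨v₁, hv₁⟩ := hPne
    simp only [hP, mem_filter, mem_univ, true_and] at hv₁
    have hv₁G : v₁ ∈ G := by simp [hG, hv₁.ne']
    have hs : ∑ v ∈ G, μ v = ∑ v, μ v := by
      apply sum_subset (subset_univ _)
      intro v _ hv
      simpa [hG] using hv
    have hs' : ∑ v ∈ G, μ v • p v = ∑ v, μ v • p v := by
      apply sum_subset (subset_univ _)
      intro v _ hv
      have : μ v = 0 := by simpa [hG] using hv
      rw [this, zero_smul]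
    have := hind univ (fun v => μ v) (by rw [sum_coe_sort G (fun v => μ v), hs, h0])
      (by rw [sum_coe_sort G (fun v => μ v • p v), hs', h1]) ⟨v₁, hv₁G⟩ (mem_univ _)
    exact hv₁.ne' this
  -- the faces
  have hface : ∀ G : Finset V, ¬ P ⊆ G → ¬ N ⊆ G → IsFace p G := by
    intro G hPG hNG
    obtain ⟨u, huP, huG⟩ := not_subset.1 hPG
    obtain ⟨w, hwN, hwG⟩ := not_subset.1 hNG
    set S : ℝ := ∑ v ∈ P \ G, μ v with hS
    set T : ℝ := ∑ v ∈ N \ G, - μ v with hT
    have hSpos : 0 < S := by
      apply sum_pos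
      · intro v hv
        exact (mem_filter.1 (mem_sdiff.1 hv).1).2
      · exact ⟨u, mem_sdiff.2 ⟨huP, huG⟩⟩
    have hTpos : 0 < T := by
      apply sum_pos
      · intro v hv
        have := (mem_filter.1 (mem_sdiff.1 hv).1).2
        linarith
      · exact ⟨w, mem_sdiff.2 ⟨hwN, hwG⟩⟩
    refine face_of p G (fun h => huG (h ▸ mem_univ _))
      (fun v => 1 - (if v ∈ P \ G then T else 0) - (if v ∈ N \ G then S else 0)) (hy _ ?_) ?_ ?_
    · have e1 : ∀ v, μ v * (1 - (if v ∈ P \ G then T else 0) - (if v ∈ N \ G then S else 0))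
          = μ v - (if v ∈ P \ G then μ v * T else 0) + (if v ∈ N \ G then (- μ v) * S else 0) := by
        intro v
        split_ifs <;> ring
      rw [sum_congr rfl fun v _ => e1 v, sum_add_distrib, sum_sub_distrib, h0, sum_ite_mem,
        sum_ite_mem, univ_inter, univ_inter, ← sum_mul, ← sum_mul, ← hS, ← hT]
      ring
    · intro v hv
      have e1 : v ∉ P \ G := fun h => (mem_sdiff.1 h).2 hv
      have e2 : v ∉ N \ G := fun h => (mem_sdiff.1 h).2 hv
      simp only [e1, e2, if_false, sub_zero]
    · intro v hv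
      rcases lt_or_gt_of_ne (hne v) with h | h
      · have e1 : v ∉ P \ G := by
          intro h'
          have := (mem_filter.1 (mem_sdiff.1 h').1).2
          linarith
        have e2 : v ∈ N \ G := mem_sdiff.2 ⟨mem_filter.2 ⟨mem_univ _, h⟩, hv⟩
        simp only [e1, e2, if_false, if_true, sub_zero]
        linarith
      · have e1 : v ∈ P \ G := mem_sdiff.2 ⟨mem_filter.2 ⟨mem_univ _, h⟩, hv⟩
        have e2 : v ∉ N \ G := by
          intro h'
          have := (mem_filter.1 (mem_sdiff.1 h').1).2
          linarith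
        simp only [e1, e2, if_false, if_true, sub_zero]
        linarith
  have hdisj : Disjoint P N := by
    rw [disjoint_left]
    intro v h h'
    have := (mem_filter.1 h).2
    have := (mem_filter.1 h').2
    linarith
  have hunion : P ∪ N = univ := by
    rw [eq_univ_iff_forall]
    intro v
    rcases lt_or_gt_of_ne (hne v) with h | h
    · exact mem_union_right _ (mem_filter.2 ⟨mem_univ _, h⟩)
    · exact mem_union_left _ (mem_filter.2 ⟨mem_univ _, h⟩)
  have hcards : P.card + N.card = d + 2 := by
    rw [← card_union_of_disjoint hdisj, hunion, card_univ, hV]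
  have hsum0 : ∀ (a : Fin d → ℝ) (c : ℝ), ∑ v, μ v * (a ⬝ᵥ p v - c) = 0 := by
    intro a c
    have e1 : ∀ v, μ v * (a ⬝ᵥ p v - c) = a ⬝ᵥ (μ v • p v) - μ v * c := by
      intro v
      rw [dotProduct_smul, smul_eq_mul]; ring
    rw [sum_congr rfl fun v _ => e1 v, sum_sub_distrib, ← dotProduct_sum, h1, ← sum_mul, h0]
    simp
  have hPmiss : IsMissing p P := by
    constructor
    · rintro ⟨-, a, c, ha, hb⟩
      have hs := hsum0 a c
      rw [← hunion, sum_union hdisj, sum_eq_zero (s := P) (fun v hv => by rw [ha v hv]; ring),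
        zero_add] at hs
      have : 0 < ∑ v ∈ N, μ v * (a ⬝ᵥ p v - c) := by
        apply sum_pos _ hNne
        intro v hv
        have h2 := hb v (disjoint_right.1 hdisj hv)
        have h3 := (mem_filter.1 hv).2
        exact mul_pos_of_neg_of_neg h3 (by linarith)
      linarith
    · intro M hM
      refine hface M (fun h => hM.2 h) (fun h => ?_)
      obtain ⟨v, hv⟩ := hNne
      exact disjoint_left.1 hdisj (hM.1 (h hv)) hv
  have hNmiss : IsMissing p N := by
    constructor
    · rintro ⟨-, a, c, ha, hb⟩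
      have hs := hsum0 a c
      rw [← hunion, sum_union hdisj, sum_eq_zero (s := N) (fun v hv => by rw [ha v hv]; ring),
        add_zero] at hs
      have : ∑ v ∈ P, μ v * (a ⬝ᵥ p v - c) < 0 := by
        apply sum_neg _ hPne
        intro v hv
        have h2 := hb v (disjoint_left.1 hdisj hv)
        have h3 := (mem_filter.1 hv).2
        exact mul_neg_of_pos_of_neg h3 (by linarith)
      linarith
    · intro M hM
      refine hface M (fun h => ?_) (fun h => hM.2 h)
      obtain ⟨v, hv⟩ := hPne
      exact disjoint_left.1 hdisj hv (hM.1 (h hv))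
  have hc1 := hm P hPmiss
  have hc2 := hm N hNmiss
  refine ⟨(∑ w, C (μ w) * X w) ^ i, ⟨?_, ?_, ?_, ?_⟩, ?_⟩
  · have : (∑ w, C (μ w) * X w : MvPolynomial V ℝ).IsHomogeneous 1 := by
      apply IsHomogeneous.sum
      intro w _
      exact isHomogeneous_C_mul_X _ _
    simpa using this.pow i
  · intro n hn
    have hdeg : n.support.card ≤ i := by
      have hhom : ((∑ w, C (μ w) * X w) ^ i : MvPolynomial V ℝ).IsHomogeneous i := by
        have : (∑ w, C (μ w) * X w : MvPolynomial V ℝ).IsHomogeneous 1 := by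
          apply IsHomogeneous.sum
          intro w _
          exact isHomogeneous_C_mul_X _ _
        simpa using this.pow i
      have h2 := hhom (mem_support_iff.1 hn)
      rw [← h2, Finsupp.weight_apply, Finsupp.sum, card_eq_sum_ones]
      apply sum_le_sum
      intro v hv
      have := Finsupp.mem_support_iff.1 hv
      simp only [Pi.one_apply, smul_eq_mul, mul_one]
      omega
    refine hface _ (fun h => ?_) (fun h => ?_)
    · have := card_le_card h
      omega
    · have := card_le_card h
      omega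
  · rw [sum_congr rfl fun v _ => pow_pderiv μ i v, ← sum_mul, ← map_sum, ← mul_sum, h0, mul_zero,
      C_0, zero_mul]
  · intro k
    have e1 : ∀ v, C (p v k) * pderiv v ((∑ w, C (μ w) * X w) ^ i : MvPolynomial V ℝ)
        = C (i * (μ v * p v k)) * (∑ w, C (μ w) * X w) ^ (i - 1) := by
      intro v
      rw [pow_pderiv, ← mul_assoc, ← C_mul]
      congr 2
      ring
    have e2 : ∑ v, μ v * p v k = 0 := by
      have := congrFun h1 k
      simpa [Finset.sum_apply] using this
    rw [sum_congr rfl fun v _ => e1 v, ← sum_mul, ← map_sum, ← mul_sum, e2, mul_zero, C_0,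
      zero_mul]
  · rw [← hFi, coeff_pow]
    exact mul_ne_zero (by exact_mod_cast Nat.factorial_ne_zero _)
      (prod_ne_zero_iff.2 fun v _ => hne v)

end Small

/-- **Theorem.** For every `i ≥ 3` the assertion of Q1 fails in dimension `d = 2 i`, and the least
number of vertices of a counterexample is `2 i + 3`. -/
theorem result (i : ℕ) (hi : 3 ≤ i) : IsLeast (counterSizes (2 * i) i) (2 * i + 3) := by
  obtain ⟨m, rfl⟩ := Nat.exists_eq_add_of_le' hi
  constructor
  · refine ⟨Vx m, inferInstance, inferInstance, pt m, F0 m, cardV m, simplicial0 m, ?_,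
      (isFace_iff _).2 (free_F0 m), card_F0 m, stress_zero⟩
    intro M hM
    have := missing_card M hM
    omega
  · rintro n ⟨V, _, _, p, F, hn, hp, hm, -, hF, hz⟩
    by_contra hlt
    obtain ⟨f, hf, hc⟩ := small p (m + 3) (by omega) (by omega) hp hm (by omega) F hF
    exact hc (hz f hf)

end Pool.Agent.Results.MP_1d95a5_co.AllDegrees
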